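import Pool.Agent.H.MP_5011cf_an.A

set_option autoImplicit false
open Filter Topology Metric Set Complex

namespace Pool.Agent.H.MP_5d54af_an

theorem lg {g : ℂ → ℂ} (hg : DifferentiableOn ℂ g (ball 0 1)) (h : ∀ z ∈ ball (0 : ℂ) 1, g z ≠ 0) :
    ∃ L : ℂ → ℂ, DifferentiableOn ℂ L (ball 0 1) ∧ (∀ z ∈ ball (0 : ℂ) 1, exp (L z) = g z) ∧
      L 0 = log (g 0) := by
  obtain ⟨L, hL⟩ := MP_5011cf_an.logf hg h
  have m0 : (0 : ℂ) ∈ ball (0 : ℂ) 1 := mem_ball_self one_pos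
  refine ⟨fun z => L z + (log (g 0) - L 0), fun z hz =>
    ((hL z hz).1.differentiableAt.add_const _).differentiableWithinAt, fun z hz => ?_, by simp⟩
  rw [exp_add, exp_sub, exp_log (h 0 m0), (hL 0 m0).2, div_self (h 0 m0), mul_one, (hL z hz).2]

theorem sc {g : ℂ → ℂ} {z : ℂ} {d : ℝ} (hd : 0 < d) (hg : DifferentiableOn ℂ g (ball z d)) :
    (∀ w ∈ ball (0 : ℂ) 1, z + d * w ∈ ball z d) ∧
      DifferentiableOn ℂ (fun w => g (z + d * w)) (ball 0 1) := by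
  have : ∀ w ∈ ball (0 : ℂ) 1, z + d * w ∈ ball z d := fun w hw => by
    rw [mem_ball_zero_iff] at hw
    rw [mem_ball, dist_self_add_left, norm_mul, norm_real, Real.norm_of_nonneg hd.le]
    nlinarith
  exact ⟨this, hg.comp (by fun_prop) this⟩

theorem sc' {z w : ℂ} {d c : ℝ} (hd : 0 < d) (hw : ‖w - z‖ ≤ c * d) :
    ∃ v : ℂ, ‖v‖ ≤ c ∧ z + d * v = w := by
  have : (d : ℂ) ≠ 0 := by exact_mod_cast hd.ne'
  refine ⟨(w - z) / d, ?_, by field_simp; ring⟩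
  rw [norm_div, norm_real, Real.norm_of_nonneg hd.le, div_le_iff₀ hd]
  exact hw

theorem hk {g : ℂ → ℂ} {z w : ℂ} {d M : ℝ} (hd : 0 < d) (hM : 0 < M)
    (hg : DifferentiableOn ℂ g (ball z d)) (h0 : ∀ w ∈ ball z d, g w ≠ 0)
    (hb : ∀ w ∈ ball z d, ‖g w‖ ≤ Real.exp M * ‖g z‖) (hw : ‖w - z‖ ≤ 1 / 2 * d) :
    Real.exp (-(2 * M)) * ‖g z‖ ≤ ‖g w‖ := by
  obtain ⟨s1, s2⟩ := sc hd hg
  obtain ⟨v, hv, rfl⟩ := sc' hd hw
  obtain ⟨L, l1, l2, -⟩ := lg s2 fun w hw => h0 _ (s1 w hw)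
  have m0 : (0 : ℂ) ∈ ball (0 : ℂ) 1 := mem_ball_self one_pos
  have mv : v ∈ ball (0 : ℂ) 1 := mem_ball_zero_iff.2 (by linarith)
  have e0 : ‖g z‖ = Real.exp (L 0).re := by rw [← norm_exp, l2 0 m0]; simp
  have := borelCaratheodory_zero (f := fun w => L w - L 0) hM (l1.sub_const _) (fun w hw => by
    have := hb _ (s1 w hw)
    rw [← l2 w hw, norm_exp, e0, ← Real.exp_add, Real.exp_le_exp] at this
    show (L w - L 0).re ≤ M
    rw [sub_re]; linarith) one_pos mv (by simp)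
  have h2 : 2 * M * ‖v‖ / (1 - ‖v‖) ≤ 2 * M := by
    rw [div_le_iff₀ (by linarith)]; nlinarith
  rw [← l2 v mv, norm_exp, e0, ← Real.exp_add, Real.exp_le_exp]
  have h3 := abs_le.1 (abs_re_le_norm (L v - L 0))
  rw [sub_re] at h3
  linarith [h3.1]

theorem net (c : ℂ) : ∃ w ∈ ball c 7, ∃ n : ℤ, cosh w = n := by
  have h1 : ∀ y : ℝ, 0 ≤ y → ∃ t ∈ Icc y (y + 2), Real.cosh t = ⌈Real.cosh y⌉ := fun y hy => by
    refine intermediate_value_Icc (by linarith) Real.continuous_cosh.continuousOn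
      ⟨Int.le_ceil _, (Int.ceil_lt_add_one _).le.trans ?_⟩
    have a : 2 ≤ Real.cosh 2 := by
      have : Real.exp 2 = Real.exp 1 * Real.exp 1 := by rw [← Real.exp_add]; norm_num
      rw [Real.cosh_eq]
      nlinarith [Real.add_one_le_exp (1 : ℝ), Real.exp_pos (-2)]
    rw [Real.cosh_add]
    nlinarith [Real.one_le_cosh y, mul_nonneg (Real.sinh_nonneg_iff.2 hy)
      (Real.sinh_nonneg_iff.2 (zero_le_two (α := ℝ)))]
  obtain ⟨t, ht, n, e⟩ : ∃ t : ℝ, |t - c.re| ≤ 2 ∧ ∃ n : ℤ, Real.cosh t = n := by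
    rcases le_total 0 c.re with h | h
    · obtain ⟨t, a, b⟩ := h1 _ h
      exact ⟨t, abs_le.2 ⟨by linarith [a.1], by linarith [a.2]⟩, _, b⟩
    · obtain ⟨t, a, b⟩ := h1 _ (neg_nonneg.2 h)
      exact ⟨-t, abs_le.2 ⟨by linarith [a.2], by linarith [a.1]⟩, _, (Real.cosh_neg t).trans b⟩
  have p := Real.pi_pos
  have p4 := Real.pi_lt_four
  set m := round (c.im / (2 * Real.pi))
  have hm : |m * (2 * Real.pi) - c.im| ≤ Real.pi := by
    have := abs_sub_round (c.im / (2 * Real.pi))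
    rw [show m * (2 * Real.pi) - c.im = -(c.im / (2 * Real.pi) - m) * (2 * Real.pi) by field_simp; ring,
      abs_mul, abs_neg, abs_of_pos (by linarith : 0 < 2 * Real.pi)]
    nlinarith
  refine ⟨t + m * (2 * Real.pi * I), ?_, n, ?_⟩
  · rw [mem_ball, dist_eq_norm]
    refine (norm_le_abs_re_add_abs_im _).trans_lt ?_
    simp only [sub_re, add_re, ofReal_re, mul_re, intCast_re, sub_im, add_im, mul_im, I_re, I_im,
      ofReal_im, intCast_im, re_ofNat, im_ofNat, mul_zero, sub_zero, zero_mul, add_zero, mul_one,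
      zero_add, sub_self]
    linarith
  · rw [Complex.cosh, neg_add, exp_add, exp_add, exp_neg (m * _), exp_int_mul_two_pi_mul_I, inv_one,
      mul_one, mul_one, ← Complex.cosh, ← ofReal_cosh, e, ofReal_intCast]

theorem sch1 {g : ℂ → ℂ} (hg : DifferentiableOn ℂ g (ball 0 1)) (h0 : ∀ w ∈ ball (0 : ℂ) 1, g w ≠ 0)
    (h1 : ∀ w ∈ ball (0 : ℂ) 1, g w ≠ 1) (hs : ‖g 0‖ ≤ Real.exp (-8)) {v : ℂ}
    (hv : ‖v‖ ≤ 1 / 20000) : ‖g v‖ ^ 2 ≤ ‖g 0‖ := by
  obtain ⟨L, l1, l2, l3⟩ := lg hg h0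
  have p := Real.pi_pos
  have p4 := Real.pi_lt_four
  have c0 : (2 * Real.pi * I : ℂ) ≠ 0 := two_pi_I_ne_zero
  set F : ℂ → ℂ := fun w => L w / (2 * Real.pi * I) with hF
  have f1 : DifferentiableOn ℂ F (ball 0 1) := l1.div_const _
  have f2 : ∀ w ∈ ball (0 : ℂ) 1, ∀ n : ℤ, F w ≠ n := fun w hw n e => h1 w hw (by
    rw [← l2 w hw, (div_eq_iff c0).1 e, exp_int_mul_two_pi_mul_I])
  obtain ⟨H, a1, a2, -⟩ := lg (g := fun w => F w ^ 2 - 1) ((f1.pow 2).sub_const _) fun w hw e => by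
    rcases sq_eq_one_iff.1 (sub_eq_zero.1 e) with e | e
    · exact f2 w hw 1 (by simpa using e)
    · exact f2 w hw (-1) (by simpa using e)
  have a3 : ∀ w ∈ ball (0 : ℂ) 1, (F w + exp (H w / 2)) * (F w - exp (H w / 2)) = 1 := fun w hw => by
    have : exp (H w / 2) ^ 2 = F w ^ 2 - 1 := by rw [← a2 w hw, sq, ← exp_add, add_halves]
    linear_combination -this
  obtain ⟨G, b1, b2, -⟩ := lg (g := fun w => F w + exp (H w / 2)) (f1.add (a1.div_const 2).cexp)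
    fun w hw => left_ne_zero_of_mul_eq_one (a3 w hw)
  have b3 : ∀ w ∈ ball (0 : ℂ) 1, cosh (G w) = F w := fun w hw => by
    rw [Complex.cosh, exp_neg, b2 w hw, inv_eq_of_mul_eq_one_right (a3 w hw)]; ring
  have b4 : ∀ w ∈ closedBall (0 : ℂ) (1 / 2), ‖deriv G w‖ ≤ 1344 := fun w hw => by
    by_contra k
    obtain ⟨c, hc⟩ := MP_5011cf_an.landau b1 (a := w) (R := 1 / 4) (by norm_num)
      ((closedBall_subset_closedBall' (ε₂ := 3 / 4) (by linarith [mem_closedBall.1 hw])).trans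
        (closedBall_subset_ball (by norm_num)))
    obtain ⟨u, hu, n, e⟩ := net c
    obtain ⟨y, hy, rfl⟩ := hc (ball_subset_ball (by linarith [not_le.1 k]) hu)
    exact f2 y hy n ((b3 y hy).symm.trans e)
  have sb : closedBall (0 : ℂ) (1 / 2) ⊆ ball 0 1 := closedBall_subset_ball (by norm_num)
  have mv : v ∈ closedBall (0 : ℂ) (1 / 2) := mem_closedBall_zero_iff.2 (by linarith)
  have m0 : (0 : ℂ) ∈ closedBall (0 : ℂ) (1 / 2) := mem_closedBall_self (by norm_num)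
  have b5 := (convex_closedBall (0 : ℂ) (1 / 2)).norm_image_sub_le_of_norm_deriv_le
    (fun w hw => b1.differentiableAt (isOpen_ball.mem_nhds (sb hw))) b4 m0 mv
  rw [sub_zero] at b5
  have b6 : ‖G v - G 0‖ ≤ 1 / 10 := by linarith
  have b7 := norm_exp_sub_one_le (x := G v - G 0) (by linarith)
  have b8 := norm_exp_sub_one_le (x := -(G v - G 0)) (by rw [norm_neg]; linarith)
  rw [norm_neg] at b8
  have e1 : F v - F 0 = (exp (G 0) * (exp (G v - G 0) - 1) +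
      exp (-G 0) * (exp (-(G v - G 0)) - 1)) / 2 := by
    rw [← b3 v (sb mv), ← b3 0 (sb m0), Complex.cosh, Complex.cosh, mul_sub, mul_sub, ← exp_add,
      ← exp_add]
    ring_nf
  have e2 : ‖exp (G 0)‖ + ‖exp (-G 0)‖ ≤ 2 * ‖F 0‖ + 2 := by
    have e : exp (G 0) + exp (-G 0) = 2 * F 0 := by rw [← b3 0 (sb m0), Complex.cosh]; ring
    have e' : ‖(2 : ℂ) * F 0‖ = 2 * ‖F 0‖ := by simp
    have x1 := norm_sub_le (2 * F 0) (exp (G 0))
    have x2 := norm_sub_le (2 * F 0) (exp (-G 0))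
    rw [← e, add_sub_cancel_left, e, e'] at x1
    rw [← e, add_sub_cancel_right, e, e'] at x2
    rcases le_total (G 0).re 0 with l | l
    · have : ‖exp (G 0)‖ ≤ 1 := by rw [norm_exp]; exact Real.exp_le_one_iff.2 l
      linarith
    · have : ‖exp (-G 0)‖ ≤ 1 := by rw [norm_exp]; exact Real.exp_le_one_iff.2 (by simpa using l)
      linarith
  have e3 : ‖F v - F 0‖ ≤ (‖F 0‖ + 1) / 5 := by
    rw [e1, norm_div, show ‖(2 : ℂ)‖ = 2 by simp]
    have := norm_add_le (exp (G 0) * (exp (G v - G 0) - 1)) (exp (-G 0) * (exp (-(G v - G 0)) - 1))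
    rw [norm_mul, norm_mul] at this
    nlinarith [norm_nonneg (exp (G 0)), norm_nonneg (exp (-G 0))]
  have n2 : ‖(2 * Real.pi * I : ℂ)‖ = 2 * Real.pi := by simp [abs_of_pos p]
  simp only [hF] at e3
  rw [← sub_div, norm_div, norm_div, n2, div_le_iff₀ (by linarith)] at e3
  have e4 : (‖L 0‖ / (2 * Real.pi) + 1) / 5 * (2 * Real.pi) = (‖L 0‖ + 2 * Real.pi) / 5 := by
    field_simp
  have e0 : ‖g 0‖ = Real.exp (L 0).re := by rw [← norm_exp, l2 0 (sb m0)]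
  rw [e0, Real.exp_le_exp] at hs
  have e5 := norm_le_abs_re_add_abs_im (L 0)
  have e6 : |(L 0).im| ≤ Real.pi := by rw [l3, log_im]; exact abs_arg_le_pi _
  have e7 := re_le_norm (L v - L 0)
  rw [abs_of_neg (by linarith)] at e5
  rw [sub_re] at e7
  rw [← l2 v (sb mv), norm_exp, e0, sq, ← Real.exp_add, Real.exp_le_exp]
  linarith

theorem sch {g : ℂ → ℂ} {z w : ℂ} {d : ℝ} (hd : 0 < d) (hg : DifferentiableOn ℂ g (ball z d))
    (h0 : ∀ w ∈ ball z d, g w ≠ 0) (h1 : ∀ w ∈ ball z d, g w ≠ 1) (hs : ‖g z‖ ≤ Real.exp (-8))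
    (hw : ‖w - z‖ ≤ 1 / 20000 * d) : ‖g w‖ ^ 2 ≤ ‖g z‖ := by
  obtain ⟨s1, s2⟩ := sc hd hg
  obtain ⟨v, hv, rfl⟩ := sc' hd hw
  simpa using sch1 s2 (fun w hw => h0 _ (s1 w hw)) (fun w hw => h1 _ (s1 w hw)) (by simpa using hs) hv

theorem poly (p : Polynomial ℂ) {z w : ℂ} {q : ℝ} (hq : 1 ≤ q)
    (h : ∀ y, p.eval y = 0 → ‖w - y‖ ≤ q * ‖z - y‖) {k : ℕ} (hk : p.natDegree ≤ k) :
    ‖p.eval w‖ ≤ q ^ k * ‖p.eval z‖ := by
  have e := Polynomial.C_leadingCoeff_mul_prod_multiset_X_sub_C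
    (IsAlgClosed.card_roots_eq_natDegree (p := p))
  have key : ∀ S : Multiset ℂ, (∀ y ∈ S, ‖w - y‖ ≤ q * ‖z - y‖) →
      ‖((S.map fun a => Polynomial.X - Polynomial.C a).prod).eval w‖ ≤
        q ^ S.card * ‖((S.map fun a => Polynomial.X - Polynomial.C a).prod).eval z‖ := by
    intro S
    induction S using Multiset.induction_on with
    | empty => simp
    | cons y S ih =>
      intro h
      have h1 := ih fun y hy => h y (Multiset.mem_cons_of_mem hy)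
      have h2 := h y (Multiset.mem_cons_self _ _)
      simp only [Multiset.map_cons, Multiset.prod_cons, Polynomial.eval_mul, Polynomial.eval_sub,
        Polynomial.eval_X, Polynomial.eval_C, norm_mul, Multiset.card_cons, pow_succ]
      refine (mul_le_mul h2 h1 (norm_nonneg _) (by positivity)).trans (le_of_eq (by ring))
  have h1 := key p.roots fun y hy => h y (Polynomial.isRoot_of_mem_roots hy)
  rw [IsAlgClosed.card_roots_eq_natDegree] at h1
  rw [← e]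
  simp only [Polynomial.eval_mul, Polynomial.eval_C, norm_mul]
  rw [mul_left_comm]
  exact mul_le_mul_of_nonneg_left (h1.trans (mul_le_mul_of_nonneg_right
    (pow_le_pow_right₀ hq hk) (norm_nonneg _))) (norm_nonneg _)

end Pool.Agent.H.MP_5d54af_an
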