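import Pool.Agent.H.MP_5d54af_an.A

set_option autoImplicit false
open Filter Topology Metric Set Complex

namespace Pool.Agent.H.MP_5d54af_an

noncomputable def S (a : ℕ → ℂ) (n : ℕ) (z : ℂ) : ℂ := ∑ k ∈ Finset.range (n + 1), a k * z ^ k

structure Hy (a : ℕ → ℂ) (f : ℂ → ℂ) : Prop where
  hs : ∀ z, HasSum (fun k : ℕ => a k * z ^ k) (f z)
  h0 : ∀ z, f z ≠ 0
  h2 : 2 ≤ ‖f 0‖
  hz : ∀ z n, S a n z = 0 → 1 ≤ ‖f z‖

noncomputable def M (f : ℂ → ℂ) (t : ℝ) : ℝ :=
  sSup ((fun z : ℂ => ‖(f (t * z))⁻¹‖) '' closedBall 0 1)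

noncomputable def c (a : ℕ → ℂ) (f : ℂ → ℂ) (l : ℕ) (t : ℝ) : ℝ := ‖a l‖ * t ^ l * M f t

noncomputable def thr (l : ℕ) : ℝ := Real.exp (-9) * (1 / ((l : ℝ) + 1) ^ 2) ^ 2

def Sm (a : ℕ → ℂ) (f : ℂ → ℂ) (k : ℕ) (t : ℝ) : Prop := ∀ l, k < l → c a f l t ≤ thr l

variable {a : ℕ → ℂ} {f : ℂ → ℂ} {k : ℕ} {t T : ℝ} {z w : ℂ}

theorem df (hs : ∀ z, HasSum (fun k : ℕ => a k * z ^ k) (f z)) : Differentiable ℂ f := fun z => by
  have h1 : Summable fun k => ‖a k * ((‖z‖ + 1 : ℝ) : ℂ) ^ k‖ := summable_norm_iff.2 (hs _).summable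
  have := differentiableOn_tsum_of_summable_norm (F := fun k w => a k * w ^ k) h1
    (U := ball 0 (‖z‖ + 1)) (fun k => by fun_prop) isOpen_ball fun k w hw => by
      rw [norm_mul, norm_mul, norm_pow, norm_pow, norm_real, Real.norm_of_nonneg (by positivity)]
      gcongr
      exact (mem_ball_zero_iff.1 hw).le
  simp only [fun w => (hs w).tsum_eq] at this
  exact this.differentiableAt (isOpen_ball.mem_nhds (by simp))

theorem Hy.d (H : Hy a f) : Differentiable ℂ fun z => (f z)⁻¹ := (df H.hs).inv H.h0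

theorem Hy.Mc (H : Hy a f) : Continuous (M f) :=
  (isCompact_closedBall (0 : ℂ) 1).continuous_sSup (f := fun (t : ℝ) (z : ℂ) => ‖(f (t * z))⁻¹‖)
    (H.d.continuous.comp (f := fun p : ℝ × ℂ => (p.1 : ℂ) * p.2) (by fun_prop)).norm

theorem Hy.le (H : Hy a f) (h : ‖w‖ ≤ t) : ‖(f w)⁻¹‖ ≤ M f t := by
  refine le_csSup ((isCompact_closedBall (0 : ℂ) 1).image
    (H.d.continuous.comp (f := fun z : ℂ => (t : ℂ) * z) (by fun_prop)).norm).bddAbove ?_
  rcases ((norm_nonneg w).trans h).eq_or_lt with e | e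
  · refine ⟨0, by simp, ?_⟩
    simp [norm_le_zero_iff.1 (h.trans e.ge)]
  · obtain ⟨v, hv, e⟩ := sc' (z := 0) (c := 1) e (show ‖w - 0‖ ≤ 1 * t by simpa)
    exact ⟨v, mem_closedBall_zero_iff.2 hv, by simp [← e]⟩

theorem Hy.ex (H : Hy a f) (h : 0 ≤ t) : ∃ z, ‖z‖ = t ∧ ‖(f z)⁻¹‖ = M f t := by
  obtain ⟨z, hz, m⟩ := exists_mem_frontier_isMaxOn_norm (isCompact_closedBall (0 : ℂ) t).isBounded
    ⟨0, mem_closedBall_self h⟩ H.d.diffContOnCl
  rw [frontier_closedBall', mem_sphere_zero_iff_norm] at hz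
  refine ⟨z, hz, le_antisymm (H.le hz.le) (csSup_le ⟨_, 0, by simp, rfl⟩ ?_)⟩
  rintro _ ⟨v, hv, rfl⟩
  refine m (subset_closure (mem_closedBall_zero_iff.2 ?_))
  rw [norm_mul, norm_real, Real.norm_of_nonneg h]
  exact mul_le_of_le_one_right h (mem_closedBall_zero_iff.1 hv)

theorem Hy.pos (H : Hy a f) (h : 0 ≤ t) : 0 < M f t :=
  (norm_pos_iff.2 (inv_ne_zero (H.h0 0))).trans_le (H.le (by simpa))

theorem Hy.mono (H : Hy a f) (h : 0 ≤ t) (h' : t ≤ T) : M f t ≤ M f T := by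
  obtain ⟨z, a, b⟩ := H.ex h
  exact b ▸ H.le (a.le.trans h')

theorem Hy.lmono (H : Hy a f) (h : 0 ≤ t) (h' : t ≤ T) : Real.log (M f t) ≤ Real.log (M f T) :=
  Real.log_le_log (H.pos h) (H.mono h h')

theorem Hy.cmono (H : Hy a f) (h : 0 ≤ t) (h' : t ≤ T) (l : ℕ) : c a f l t ≤ c a f l T := by
  have := H.pos h
  have := h.trans h'
  unfold c
  gcongr
  exact H.mono h h'

theorem Hy.cc (H : Hy a f) (l : ℕ) : Continuous (c a f l) := by
  have := H.Mc
  unfold c
  fun_prop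

theorem Hy.lim (H : Hy a f) (k : ℕ) (w : ℂ) : Tendsto (fun j => S a (k + j) w) atTop (𝓝 (f w)) :=
  (H.hs w).tendsto_sum_nat.comp (tendsto_atTop_mono (fun j => by simp; omega) tendsto_id)

theorem S1 (n : ℕ) (w : ℂ) : S a (n + 1) w = S a n w + a (n + 1) * w ^ (n + 1) :=
  Finset.sum_range_succ _ _

theorem tel (n : ℕ) : 1 / (((n + 1 : ℕ) : ℝ) + 1) ^ 2 ≤ 1 / ((n : ℝ) + 1) - 1 / (((n + 1 : ℕ) : ℝ) + 1) := by
  push_cast
  rw [div_sub_div _ _ (by positivity) (by positivity), div_le_div_iff₀ (by positivity) (by positivity)]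
  nlinarith [(Nat.cast_nonneg n : (0 : ℝ) ≤ n)]

theorem e9 : Real.exp (-9) ≤ 1 / 10 := by
  rw [Real.exp_neg, one_div]
  exact inv_anti₀ (by norm_num) (by linarith [Real.add_one_le_exp (9 : ℝ)])

theorem q1 (l : ℕ) : 1 / ((l : ℝ) + 1) ^ 2 ≤ 1 := by
  rw [div_le_one (by positivity)]
  nlinarith [(Nat.cast_nonneg l : (0 : ℝ) ≤ l)]

theorem Hy.tail (H : Hy a f) (h : Sm a f k T) (hw : ‖w‖ ≤ T) {n : ℕ} (hn : k ≤ n) :
    9 / 10 * ‖f w‖ ≤ ‖S a n w‖ ∧ ‖S a n w‖ ≤ 11 / 10 * ‖f w‖ := by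
  have p := norm_pos_iff.2 (H.h0 w)
  have h1 : 1 ≤ M f T * ‖f w‖ := by
    have := H.le hw
    rwa [norm_inv, inv_le_iff_one_le_mul₀ p] at this
  have key : ∀ j, ‖S a (n + j) w - S a n w‖ ≤ ‖f w‖ / 10 * (1 - 1 / ((n + j : ℕ) + 1)) := by
    intro j
    induction j with
    | zero =>
      simp only [add_zero, sub_self, norm_zero]
      exact mul_nonneg (by positivity) (by
        rw [sub_nonneg, div_le_one (by positivity)]; simp)
    | succ j ih =>
      rw [← add_assoc, S1, add_sub_right_comm]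
      refine (norm_add_le _ _).trans ?_
      have h2 := h (n + j + 1) (by omega)
      have h3 : ‖a (n + j + 1) * w ^ (n + j + 1)‖ ≤ ‖a (n + j + 1)‖ * T ^ (n + j + 1) := by
        rw [norm_mul, norm_pow]; gcongr
      have h4 := tel (n + j)
      have h5 := q1 (n + j + 1)
      have l : 0 ≤ 1 / (((n + j + 1 : ℕ) : ℝ) + 1) ^ 2 := by positivity
      unfold c thr at h2
      generalize 1 / (((n + j + 1 : ℕ) : ℝ) + 1) ^ 2 = x at h2 h4 h5 l
      have h6 : Real.exp (-9) * x ^ 2 ≤ 1 / 10 * x :=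
        mul_le_mul e9 (by nlinarith) (by positivity) (by norm_num)
      have h7 := mul_le_mul_of_nonneg_right (h2.trans h6) p.le
      have h8 := mul_le_mul_of_nonneg_left h1 ((norm_nonneg _).trans h3)
      nlinarith
  have := le_of_tendsto' ((H.lim n w).sub_const (S a n w)).norm fun j => (key j).trans
    (mul_le_of_le_one_right (by positivity) (sub_le_self _ (by positivity)))
  constructor
  · linarith [norm_sub_norm_le (f w) (S a n w)]
  · rw [norm_sub_rev] at this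
    linarith [norm_sub_norm_le (S a n w) (f w)]

theorem Hy.F (H : Hy a f) (h : Sm a f k T) {s : ℝ} (h0 : 0 ≤ s) (h1 : s ≤ t) (h2 : 0 < t)
    (h3 : t < T) : Real.log (M f t) ≤ Real.log (M f s) + 1 / 4 + k * ((t - s) / (T - t)) := by
  obtain ⟨z, z1, z2⟩ := H.ex h2.le
  set p : Polynomial ℂ := ∑ i ∈ Finset.range (k + 1), Polynomial.monomial i (a i)
  have ev : ∀ y, p.eval y = S a k y := fun y => by simp [p, S, Polynomial.eval_finset_sum]
  have dg : p.natDegree ≤ k := Polynomial.natDegree_sum_le_of_forall_le _ _ fun i hi =>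
    (Polynomial.natDegree_monomial_le _).trans (Nat.lt_succ_iff.1 (Finset.mem_range.1 hi))
  set w : ℂ := ((s / t : ℝ) : ℂ) * z
  have w1 : ‖w‖ = s := by
    rw [norm_mul, norm_real, Real.norm_of_nonneg (by positivity), z1]; field_simp
  have w2 : ‖w - z‖ = t - s := by
    rw [norm_sub_rev, show z - w = (((t - s) / t : ℝ) : ℂ) * z by
      simp only [w, sub_div, div_self h2.ne']; push_cast; ring, norm_mul, norm_real,
      Real.norm_of_nonneg (div_nonneg (by linarith) h2.le), z1]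
    field_simp
  have q0 : 0 ≤ (t - s) / (T - t) := div_nonneg (by linarith) (by linarith)
  have h4 := poly p (z := z) (w := w) (q := Real.exp ((t - s) / (T - t))) (Real.one_le_exp q0)
    (fun y hy => by
      have y1 : T ≤ ‖y‖ := by
        by_contra l
        have := (H.tail h (not_le.1 l).le le_rfl).1
        rw [← ev, hy, norm_zero] at this
        linarith [norm_pos_iff.2 (H.h0 y)]
      have y2 : T - t ≤ ‖z - y‖ := by rw [norm_sub_rev]; linarith [norm_sub_norm_le y z]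
      have y3 := norm_sub_le_norm_sub_add_norm_sub w z y
      have y4 := mul_le_mul_of_nonneg_left y2 q0
      rw [div_mul_cancel₀ _ (by linarith)] at y4
      nlinarith [Real.add_one_le_exp ((t - s) / (T - t)), norm_nonneg (z - y)]) dg
  rw [ev, ev, ← Real.exp_nat_mul] at h4
  have h5 := (H.tail h (w := w) (by linarith) le_rfl).1
  have h6 := (H.tail h (w := z) (by linarith) le_rfl).2
  have h7 := H.le w1.le
  have pw := norm_pos_iff.2 (H.h0 w)
  have pz := norm_pos_iff.2 (H.h0 z)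
  rw [norm_inv, inv_le_iff_one_le_mul₀ pw] at h7
  rw [Real.log_le_iff_le_exp (H.pos h2.le), Real.exp_add, Real.exp_add, Real.exp_log (H.pos h0), ← z2,
    norm_inv, inv_le_iff_one_le_mul₀ pz]
  have h8 := Real.add_one_le_exp (1 / 4 : ℝ)
  have h9 := Real.exp_pos (k * ((t - s) / (T - t)))
  have := H.pos h0
  generalize Real.exp (k * ((t - s) / (T - t))) = E at *
  have b1 : ‖f w‖ ≤ 5 / 4 * (E * ‖f z‖) := by nlinarith [mul_pos h9 pz]
  have b2 := mul_le_mul_of_nonneg_left b1 this.le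
  nlinarith [mul_pos this (mul_pos h9 pz)]

theorem Hy.near (H : Hy a f) (h : Sm a f k t) (hk : 1 ≤ k) (ht : 0 < t) {P : ℝ} (hP : 0 ≤ P)
    (c1 : Real.exp (-9 - P) ≤ c a f k t) (c2 : c a f k t ≤ Real.exp (-9)) (z1 : ‖z‖ = t)
    (z2 : ‖(f z)⁻¹‖ = M f t) : ∃ b ∈ ball z (80000 * t * ((11 + P) / k)), 1 ≤ ‖f b‖ := by
  by_contra! hb
  have k0 : (0 : ℝ) < k := by exact_mod_cast hk
  set s := (11 + P) / k with hs
  have s0 : 0 < s := by positivity
  have d0 : 0 < 80000 * t * s := by positivity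
  have b1 : ∀ w ∈ ball z (80000 * t * s), ∀ n, S a n w ≠ 0 := fun w hw n e =>
    (hb w hw).not_ge (H.hz w n e)
  have b2 : ∀ w ∈ ball z (80000 * t * s), w ≠ 0 := by
    rintro _ hw rfl
    linarith [hb 0 hw, H.h2]
  have b3 : 80000 * s ≤ 1 := by
    by_contra l
    refine b2 0 ?_ rfl
    rw [mem_ball, dist_zero_left, z1]
    nlinarith
  have pz := norm_pos_iff.2 (H.h0 z)
  have mz : M f t * ‖f z‖ = 1 := by rw [← z2, norm_inv, inv_mul_cancel₀ pz.ne']
  have key : ∀ w, ‖w - z‖ ≤ 4 * t * s → ∀ l, k ≤ l → ∀ x, 0 ≤ x → x ≤ 1 →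
      c a f l t ≤ Real.exp (-9) * x ^ 2 → ‖a l * w ^ l‖ ≤ x * ‖S a l w‖ := by
    intro w hw l hl x x0 x1 hx
    by_cases al : a l = 0
    · rw [al, zero_mul, norm_zero]; positivity
    have wb : w ∈ ball z (80000 * t * s) := mem_ball_iff_norm.2 (by nlinarith)
    have sz := (H.tail h z1.le hl).1
    have e1 : ‖a l * z ^ l / S a l z‖ ≤ 2 * c a f l t := by
      rw [norm_div, div_le_iff₀ (by linarith), norm_mul, norm_pow, z1]
      have : 0 ≤ c a f l t := by have := H.pos ht.le; unfold c; positivity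
      have e : ‖a l‖ * t ^ l = c a f l t * ‖f z‖ := by rw [c, mul_assoc, mz, mul_one]
      nlinarith
    have e2 : 2 * Real.exp (-9) ≤ Real.exp (-8) := by
      rw [show (-8 : ℝ) = 1 + -9 by norm_num, Real.exp_add]
      nlinarith [Real.add_one_le_exp (1 : ℝ), Real.exp_pos (-9)]
    have e3 := sch (g := fun w => a l * w ^ l / S a l w) d0
      (DifferentiableOn.div (by fun_prop) (by unfold S; fun_prop) fun w hw => b1 w hw l)
      (fun w hw => div_ne_zero (mul_ne_zero al (pow_ne_zero _ (b2 w hw))) (b1 w hw l))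
      (fun w hw e => by
        obtain ⟨m, rfl⟩ : ∃ m, l = m + 1 := ⟨l - 1, by omega⟩
        rw [div_eq_one_iff_eq (b1 w hw _), S1] at e
        exact b1 w hw m (by linear_combination -e))
      (by linarith [mul_le_of_le_one_right (Real.exp_pos (-9)).le (pow_le_one₀ (n := 2) x0 x1)])
      (w := w) (by linarith)
    have e4 : ‖a l * w ^ l / S a l w‖ ≤ x :=
      (pow_le_pow_iff_left₀ (norm_nonneg _) x0 two_ne_zero).1 (by nlinarith [e9, sq_nonneg x])
    rwa [norm_div, div_le_iff₀ (norm_pos_iff.2 (b1 w wb l))] at e4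
  have pr : ∀ w, ‖w - z‖ ≤ 4 * t * s → ‖a k * w ^ k / f w‖ ≤ Real.exp 1 := by
    intro w hw
    have h1 : ∀ j, ‖S a k w‖ ≤ Real.exp (1 - 1 / ((k + j : ℕ) + 1)) * ‖S a (k + j) w‖ := by
      intro j
      induction j with
      | zero =>
        exact le_mul_of_one_le_left (norm_nonneg _) (Real.one_le_exp (by
          rw [sub_nonneg, div_le_one (by positivity)]; simp))
      | succ j ih =>
        have h2 := key w hw (k + j + 1) (by omega) _ (by positivity) (q1 _) (h _ (by omega))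
        have h3 := tel (k + j)
        have h4 := norm_sub_le (S a (k + j + 1) w) (a (k + j + 1) * w ^ (k + j + 1))
        rw [show S a (k + j + 1) w - _ = S a (k + j) w by rw [S1]; ring] at h4
        have h5 := Real.add_one_le_exp (1 / (((k + j : ℕ) : ℝ) + 1) - 1 / (((k + j + 1 : ℕ) : ℝ) + 1))
        refine ih.trans ?_
        rw [← add_assoc, show 1 - 1 / (((k + j + 1 : ℕ) : ℝ) + 1) = 1 - 1 / (((k + j : ℕ) : ℝ) + 1) +
          (1 / (((k + j : ℕ) : ℝ) + 1) - 1 / (((k + j + 1 : ℕ) : ℝ) + 1)) by ring, Real.exp_add,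
          mul_assoc]
        refine mul_le_mul_of_nonneg_left ?_ (Real.exp_pos _).le
        nlinarith [norm_nonneg (S a (k + j + 1) w)]
    have h2 := ge_of_tendsto' ((H.lim k w).norm.const_mul (Real.exp 1)) fun j => (h1 j).trans
      (mul_le_mul_of_nonneg_right (Real.exp_le_exp.2 (sub_le_self _ (by positivity))) (norm_nonneg _))
    have h3 := key w hw k le_rfl 1 zero_le_one le_rfl (by simpa using c2)
    rw [norm_div, div_le_iff₀ (norm_pos_iff.2 (H.h0 w))]
    linarith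
  have ez : ‖a k * z ^ k / f z‖ = c a f k t := by
    rw [div_eq_mul_inv, norm_mul, norm_mul, norm_pow, z1, z2, c]
  have ak : a k ≠ 0 := fun e => by
    rw [c, e, norm_zero, zero_mul, zero_mul] at c1
    exact c1.not_gt (Real.exp_pos _)
  have sb : ball z (4 * t * s) ⊆ ball z (80000 * t * s) := ball_subset_ball (by nlinarith)
  have h1 := MP_5d54af_an.hk (g := fun w => a k * w ^ k / f w) (z := z) (w := ((1 - 2 * s : ℝ) : ℂ) * z)
    (d := 4 * t * s) (M := 10 + P) (by positivity) (by positivity)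
    (DifferentiableOn.div (by fun_prop) (df H.hs).differentiableOn fun w _ => H.h0 w)
    (fun w hw => div_ne_zero (mul_ne_zero ak (pow_ne_zero _ (b2 w (sb hw)))) (H.h0 w))
    (fun w hw => (pr w (mem_ball_iff_norm.1 hw).le).trans (by
      rw [ez, show (1 : ℝ) = 10 + P + (-9 - P) by ring, Real.exp_add]
      exact mul_le_mul_of_nonneg_left c1 (Real.exp_pos _).le)) (by
      rw [show ((1 - 2 * s : ℝ) : ℂ) * z - z = ((-(2 * s) : ℝ) : ℂ) * z by push_cast; ring, norm_mul,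
        norm_real, norm_neg, Real.norm_of_nonneg (by positivity), z1]
      linarith)
  have n1 : ‖((1 - 2 * s : ℝ) : ℂ) * z‖ = (1 - 2 * s) * t := by
    rw [norm_mul, norm_real, Real.norm_of_nonneg (by linarith), z1]
  have h2 := H.le (n1.le.trans (show (1 - 2 * s) * t ≤ t by nlinarith))
  have h3 : (1 - 2 * s) ^ k ≤ Real.exp (-(2 * (11 + P))) := by
    rw [show -(2 * (11 + P)) = k * -(2 * s) by rw [hs]; field_simp, Real.exp_nat_mul]
    exact pow_le_pow_left₀ (by linarith) (by linarith [Real.add_one_le_exp (-(2 * s))]) _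
  rw [ez, div_eq_mul_inv, norm_mul, norm_mul, norm_pow, n1, mul_pow] at h1
  have h4 : ‖a k‖ * ((1 - 2 * s) ^ k * t ^ k) * ‖(f (((1 - 2 * s : ℝ) : ℂ) * z))⁻¹‖ ≤
      Real.exp (-(2 * (11 + P))) * c a f k t := by
    refine le_trans ?_ (le_of_eq (show ‖a k‖ * (Real.exp (-(2 * (11 + P))) * t ^ k) * M f t = _ by
      rw [c]; ring))
    gcongr
  have h5 := le_of_mul_le_mul_right (h1.trans h4) ((Real.exp_pos _).trans_le c1)
  rw [Real.exp_le_exp] at h5
  linarith

theorem Hy.grow (H : Hy a f) (h : Sm a f k t) (hk : 1 ≤ k) (ht : 0 < t) {P : ℝ} (hP : 0 ≤ P)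
    (c1 : Real.exp (-9 - P) ≤ c a f k t) (c2 : c a f k t ≤ Real.exp (-9))
    (hB : 0 < Real.log (M f t)) :
    7 / 5 * Real.log (M f t) ≤ Real.log (M f (t + 160000 * t * ((11 + P) / k))) := by
  by_contra! l
  obtain ⟨z, z1, z2⟩ := H.ex ht.le
  obtain ⟨b, b1, b2⟩ := H.near h hk ht hP c1 c2 z1 z2
  have k0 : (0 : ℝ) < k := by exact_mod_cast hk
  have d0 : 0 < 160000 * t * ((11 + P) / k) := by positivity
  have m := Real.exp_log (H.pos ht.le)
  have h1 := MP_5d54af_an.hk (g := fun w => (f w)⁻¹) (z := z) (w := b) d0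
    (M := 2 / 5 * Real.log (M f t)) (by positivity) H.d.differentiableOn
    (fun w _ => inv_ne_zero (H.h0 w)) (fun w hw => by
      have := norm_le_norm_add_norm_sub' w z
      refine (H.le (t := t + 160000 * t * ((11 + P) / k))
        (by linarith [mem_ball_iff_norm.1 hw])).trans ?_
      rw [z2, ← Real.exp_log (H.pos (by positivity))]
      nth_rw 2 [← m]
      rw [← Real.exp_add, Real.exp_le_exp]
      linarith) (by linarith [mem_ball_iff_norm.1 b1])
  rw [z2] at h1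
  nth_rw 2 [← m] at h1
  rw [← Real.exp_add, norm_inv] at h1
  have := h1.trans (inv_le_one_of_one_le₀ b2)
  rw [Real.exp_le_one_iff] at this
  linarith

end Pool.Agent.H.MP_5d54af_an
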