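import Pool.Agent.H.MP_5d54af_an.B

set_option autoImplicit false
open Filter Topology Metric Set Complex

namespace Pool.Agent.H.MP_5d54af_an

variable {a : ℕ → ℂ} {f : ℂ → ℂ} {k : ℕ} {r t T x : ℝ}

theorem thr_eq (l : ℕ) : thr l = Real.exp (-9 - 4 * Real.log (l + 1)) := by
  rw [Real.exp_sub, show (4 : ℝ) = (4 : ℕ) by norm_num, Real.exp_nat_mul,
    Real.exp_log (by positivity), thr]
  field_simp

theorem Hy.fin (H : Hy a f) (ht : 0 ≤ t) : ∃ N, ∀ l, N ≤ l → c a f l t < thr l := by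
  have h1 := (H.hs ((2 * t : ℝ) : ℂ)).summable.tendsto_atTop_zero.norm
  have h2 := (tendsto_pow_const_mul_const_pow_of_abs_lt_one 4 (r := 1 / 2)
    (by rw [abs_of_pos] <;> norm_num)).comp (tendsto_add_atTop_nat 1)
  have h3 := (h1.mul h2).mul_const (2 * M f t)
  simp only [norm_zero, zero_mul] at h3
  obtain ⟨N, hN⟩ := eventually_atTop.1 (h3.eventually (gt_mem_nhds (Real.exp_pos (-9))))
  refine ⟨N, fun l hl => ?_⟩
  have := hN l hl
  simp only [Function.comp, norm_mul, norm_pow, norm_real] at this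
  rw [Real.norm_of_nonneg (by positivity), Real.norm_of_nonneg ht] at this
  rw [thr, div_pow, one_pow, mul_one_div, lt_div_iff₀ (by positivity)]
  convert this using 1
  rw [c, mul_pow, one_div, inv_pow, pow_succ (2 : ℝ) l]
  push_cast
  field_simp

def Br (a : ℕ → ℂ) (f : ℂ → ℂ) (r : ℝ) (k : ℕ) : Prop :=
  1 ≤ k ∧ 0 < r ∧ c a f k r = thr k ∧ Sm a f k r

theorem Hy.bar (H : Hy a f) (hr : 0 < r) (hT : r ≤ T) (hk : 1 ≤ k)
    (h1 : ∀ l, k ≤ l → c a f l r ≤ thr l) (h2 : ∃ l, k ≤ l ∧ thr l ≤ c a f l T) :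
    ∃ s m, r ≤ s ∧ s ≤ T ∧ k ≤ m ∧ Br a f s m ∧ Sm a f m T := by
  obtain ⟨N, hN⟩ := H.fin (hr.le.trans hT)
  obtain ⟨l, l1, l2⟩ := h2
  have hb : BddAbove {l | thr l ≤ c a f l T} := ⟨N, fun l hl => le_of_not_ge fun b => (hN l b).not_ge hl⟩
  have h3 := Nat.sSup_mem ⟨l, l2⟩ hb
  have h4 := l1.trans (le_csSup hb l2)
  have h5 : Sm a f (sSup {l | thr l ≤ c a f l T}) T := fun l hl =>
    le_of_not_ge fun b => hl.not_ge (le_csSup hb b)
  obtain ⟨s, s1, s2⟩ := intermediate_value_Icc hT (H.cc _).continuousOn ⟨h1 _ h4, h3⟩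
  exact ⟨s, _, s1.1, s1.2, h4, ⟨hk.trans h4, hr.trans_le s1.1, s2, fun l hl =>
    (H.cmono (hr.le.trans s1.1) s1.2 l).trans (h5 l hl)⟩, h5⟩

theorem lk (hx : 1 ≤ x) (h : x ^ 2 ≤ k) : x * Real.log (k + 1) ≤ 2 * k := by
  have k0 : (0 : ℝ) ≤ k := Nat.cast_nonneg k
  have h1 := Real.sq_sqrt k0
  have h2 : x ≤ √k := Real.le_sqrt_of_sq_le h
  have h3 : Real.log (k + 1) ≤ Real.log ((√k + 1) ^ 2) :=
    Real.log_le_log (by positivity) (by nlinarith)
  rw [Real.log_pow] at h3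
  have h4 := Real.log_le_sub_one_of_pos (show 0 < √(k : ℝ) + 1 by positivity)
  have h5 : 0 ≤ Real.log (k + 1) := Real.log_nonneg (by linarith)
  push_cast at h3
  nlinarith

theorem Hy.gap (H : Hy a f) (h : Br a f r k) (hx : 1 ≤ x) (hk : x ^ 2 ≤ k)
    (hB : 13 / 10 * x ≤ Real.log (M f r)) (hT : r * Real.exp (10 ^ 7 / x) ≤ T) : ¬ Sm a f k T := by
  intro hS
  obtain ⟨k1, r0, e, -⟩ := h
  have k0 : (0 : ℝ) < k := by exact_mod_cast k1
  have x0 : 0 < x := by linarith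
  have h0 : 0 ≤ Real.log (k + 1) := Real.log_nonneg (by linarith)
  have h1 : r ≤ r * Real.exp (8 / x) := le_mul_of_one_le_right r0.le (Real.one_le_exp (by positivity))
  obtain ⟨s, s1, s2⟩ := intermediate_value_Icc h1 (H.cc k).continuousOn
    (show Real.exp (-9) ∈ Icc _ _ from ⟨by rw [e, thr_eq, Real.exp_le_exp]; linarith, by
      have b1 : Real.exp (8 / x) ^ k * c a f k r ≤ c a f k (r * Real.exp (8 / x)) := by
        refine (le_of_eq (show _ = ‖a k‖ * (r * Real.exp (8 / x)) ^ k * M f r by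
          rw [c]; ring)).trans ?_
        exact mul_le_mul_of_nonneg_left (H.mono r0.le h1) (by positivity)
      refine le_trans ?_ b1
      rw [e, thr_eq, ← Real.exp_nat_mul, ← Real.exp_add, Real.exp_le_exp]
      have : 4 * Real.log (k + 1) ≤ k * (8 / x) := by
        rw [mul_div_assoc', le_div_iff₀ x0]; linarith [lk hx hk]
      linarith⟩)
  have s0 := r0.trans_le s1.1
  set y := s / x with hy
  have y0 : 0 < y := by positivity
  have h2 : s + 9999992 * y ≤ T := by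
    refine le_trans ?_ hT
    rw [show 10 ^ 7 / x = 8 / x + 9999992 / x by ring, Real.exp_add, ← mul_assoc]
    refine le_trans ?_ (mul_le_mul s1.2 (Real.add_one_le_exp _) (by positivity) (by positivity))
    rw [hy]; ring_nf; rfl
  have h3 := H.lmono r0.le s1.1
  have h4 := H.grow (t := s) (fun l hl => (H.cmono s0.le (by linarith) l).trans (hS l hl)) k1 s0
    le_rfl (by rw [s2]; simp) s2.le (by linarith)
  have h5 : 160000 * s * ((11 + 0) / k) ≤ 1760000 * y := by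
    have : s / k ≤ y := div_le_div_of_nonneg_left s0.le x0 (by nlinarith)
    linarith [show 160000 * s * ((11 + 0) / k) = 1760000 * (s / k) by ring]
  have h6 : 0 < 160000 * s * ((11 + 0) / k) := by positivity
  have h7 := H.F hS s0.le (le_add_of_nonneg_right h6.le) (by linarith) (by linarith)
  have h8 : k * ((s + 160000 * s * ((11 + 0) / k) - s) / (T - (s + 160000 * s * ((11 + 0) / k)))) ≤
      x / 4 := by
    rw [mul_div_assoc', div_le_iff₀ (by linarith), show k * (s + 160000 * s * ((11 + 0) / k) - s) =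
      x / 4 * (7040000 * y) by rw [hy]; field_simp; ring]
    exact mul_le_mul_of_nonneg_left (by linarith) (by positivity)
  linarith

theorem Hy.B0 (H : Hy a f) : Real.log (M f 0) ≤ -(1 / 4) := by
  obtain ⟨z, z1, z2⟩ := H.ex le_rfl
  rw [← z2, norm_eq_zero.1 z1, norm_inv, Real.log_inv, neg_le_neg_iff]
  exact le_trans (by linarith [Real.log_two_gt_d9]) (Real.log_le_log two_pos H.h2)

theorem Hy.step (H : Hy a f) (h : Br a f r k) (hx : 1 ≤ x) (hk : x ^ 2 ≤ k)
    (hB : (11 / 10 * x) ^ 3 ≤ Real.log (M f r)) : ∃ s m, Br a f s m ∧ (11 / 10 * x) ^ 2 ≤ m ∧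
      (11 / 10 * (11 / 10 * x)) ^ 3 ≤ Real.log (M f s) ∧ s ≤ r * Real.exp (2 * 10 ^ 7 / x) := by
  obtain ⟨k1, r0, e, hS⟩ := h
  have k0 : (0 : ℝ) < k := by exact_mod_cast k1
  have x0 : 0 < x := by linarith
  have h0 : 0 ≤ Real.log (k + 1) := Real.log_nonneg (by linarith)
  have x3 : x ≤ x ^ 3 := le_self_pow₀ hx (by norm_num)
  set y := r / x with hy
  have y0 : 0 < y := by positivity
  have h1 := H.grow hS k1 r0 (P := 4 * Real.log (k + 1)) (by positivity) (by rw [e, thr_eq])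
    (by rw [e, thr_eq, Real.exp_le_exp]; linarith) (lt_of_lt_of_le (by positivity) hB)
  have h2 : 160000 * r * ((11 + 4 * Real.log (k + 1)) / k) ≤ 10 ^ 7 * y := by
    have : (11 + 4 * Real.log (k + 1)) / k ≤ 19 / x := by
      rw [div_le_div_iff₀ k0 x0]; nlinarith [lk hx hk]
    refine (mul_le_mul_of_nonneg_left this (by positivity)).trans ?_
    linarith [show 160000 * r * (19 / x) = 3040000 * y by rw [hy]; ring]
  obtain ⟨s, m, s1, s2, m1, b, hm⟩ := H.bar r0 (T := r + 10 ^ 7 * y) (by linarith) k1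
    (fun l hl => hl.eq_or_lt.elim (fun e' => e' ▸ e.le) (hS l))
    ⟨k, le_rfl, e.ge.trans (H.cmono r0.le (by linarith) k)⟩
  have E1 := Real.one_le_exp (show 0 ≤ 10 ^ 7 / x by positivity)
  have h3 := H.gap b hx (hk.trans (by exact_mod_cast m1)) (le_trans (by nlinarith) (H.lmono r0.le s1))
    (mul_le_mul_of_nonneg_right s2 (Real.exp_pos _).le)
  simp only [Sm, not_forall, not_le] at h3
  obtain ⟨l, l1, l2⟩ := h3
  have h4 := le_mul_of_one_le_right (show 0 ≤ r + 10 ^ 7 * y by positivity) E1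
  obtain ⟨s', m', t1, t2, -, b', hm'⟩ := H.bar (by positivity) h4 (k := m + 1) (by omega)
    hm ⟨l, l1, l2.le⟩
  refine ⟨s', m', b', ?_, ?_, t2.trans ?_⟩
  · have h5 := H.F hm' le_rfl r0.le r0 (by linarith)
    have h6 : (r - 0) / ((r + 10 ^ 7 * y) * Real.exp (10 ^ 7 / x) - r) ≤ x := by
      rw [div_le_iff₀ (by linarith)]
      have : r = x * y := by rw [hy]; field_simp
      nlinarith
    have h7 := mul_le_mul_of_nonneg_left h6 (Nat.cast_nonneg m')
    have h8 : (11 / 10 * x) ^ 2 * x ≤ m' * x := by nlinarith [H.B0]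
    exact le_of_mul_le_mul_right h8 x0
  · have := H.lmono (by positivity) ((add_le_add_right h2 r).trans t1)
    nlinarith
  · rw [show 2 * 10 ^ 7 / x = 10 ^ 7 / x + 10 ^ 7 / x by ring, Real.exp_add, ← mul_assoc]
    refine mul_le_mul_of_nonneg_right ?_ (Real.exp_pos _).le
    refine le_trans ?_ (mul_le_mul_of_nonneg_left (Real.add_one_le_exp _) r0.le)
    rw [hy]; ring_nf; rfl

theorem Hy.main (H : Hy a f) (z w : ℂ) : f z = f w := by
  by_contra hn
  obtain ⟨r, r0, hr⟩ : ∃ r, 0 < r ∧ 2 ≤ Real.log (M f r) := by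
    by_contra! l
    refine hn (inv_injective (H.d.apply_eq_apply_of_bounded
      (isBounded_iff_forall_norm_le.2 ⟨Real.exp 2, ?_⟩) z w))
    rintro _ ⟨v, rfl⟩
    refine (H.le (t := ‖v‖ + 1) (by linarith)).trans ?_
    rw [← Real.log_le_iff_le_exp (H.pos (by positivity))]
    exact (l _ (by positivity)).le
  obtain ⟨N, hN⟩ := H.fin r0.le
  have n0 : (0 : ℝ) ≤ N := Nat.cast_nonneg N
  have h1 : ¬ Sm a f N ((N + 2) * r) := fun h => by
    have h5 := H.F h le_rfl r0.le r0 (by nlinarith)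
    have : N * ((r - 0) / ((N + 2) * r - r)) ≤ 1 := by
      rw [mul_div_assoc', div_le_one (by nlinarith)]; nlinarith
    linarith [H.B0]
  simp only [Sm, not_forall, not_le] at h1
  obtain ⟨l, l1, l2⟩ := h1
  obtain ⟨s, m, s1, -, -, b, -⟩ := H.bar r0 (T := (N + 2) * r) (by nlinarith) (k := N + 1) (by omega)
    (fun l hl => (hN l (by omega)).le) ⟨l, l1, l2.le⟩
  have key : ∀ n : ℕ, ∃ t k, Br a f t k ∧ ((11 / 10 : ℝ) ^ n) ^ 2 ≤ k ∧
      (11 / 10 * (11 / 10 : ℝ) ^ n) ^ 3 ≤ Real.log (M f t) ∧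
      t * Real.exp (22 * 10 ^ 7 / (11 / 10) ^ n) ≤ s * Real.exp (22 * 10 ^ 7) := by
    intro n
    induction n with
    | zero =>
      exact ⟨s, m, b, by simpa using b.1, le_trans (by norm_num) (hr.trans (H.lmono r0.le s1)),
        by simp⟩
    | succ n ih =>
      obtain ⟨t, k, b1, b2, b3, b4⟩ := ih
      obtain ⟨t', k', d1, d2, d3, d4⟩ := H.step b1 (one_le_pow₀ (by norm_num)) b2 b3
      rw [pow_succ' (11 / 10 : ℝ) n]
      refine ⟨t', k', d1, d2, d3, le_trans ?_ b4⟩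
      refine (mul_le_mul_of_nonneg_right d4 (Real.exp_pos _).le).trans (le_of_eq ?_)
      rw [mul_assoc, ← Real.exp_add]
      congr 2
      field_simp
      norm_num
  obtain ⟨n, hn⟩ := pow_unbounded_of_one_lt (Real.log (M f (s * Real.exp (22 * 10 ^ 7))))
    (show (1 : ℝ) < 11 / 10 by norm_num)
  obtain ⟨t, k, b1, -, b3, b4⟩ := key n
  have h1 := H.lmono b1.2.1.le ((le_mul_of_one_le_right b1.2.1.le
    (Real.one_le_exp (by positivity))).trans b4)
  have h2 : (1 : ℝ) ≤ (11 / 10) ^ n := one_le_pow₀ (by norm_num)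
  have h3 := le_self_pow₀ (show 1 ≤ 11 / 10 * (11 / 10 : ℝ) ^ n by linarith) (n := 3) (by norm_num)
  exact hn.not_ge (le_trans (by linarith) (h3.trans (b3.trans h1)))

theorem final (hs : ∀ z : ℂ, HasSum (fun k : ℕ => a k * z ^ k) (f z)) (h0 : ∀ z : ℂ, f z ≠ 0)
    (hn : ∃ z w : ℂ, f z ≠ f w) {e : ℝ} (he : 0 < e) : ∃ z : ℂ, ∃ n : ℕ,
      (∑ k ∈ Finset.range (n + 1), a k * z ^ k) = 0 ∧ ‖f z‖ < e := by
  by_contra! h
  obtain ⟨z, w, hn⟩ := hn
  have p := norm_pos_iff.2 (h0 0)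
  set d := min e (‖f 0‖ / 2)
  have d0 : 0 < d := by positivity
  have d1 : (d : ℂ) ≠ 0 := by exact_mod_cast d0.ne'
  have n : ∀ z, ‖f z / d‖ = ‖f z‖ / d := fun z => by
    rw [norm_div, norm_real, Real.norm_of_nonneg d0.le]
  have H : Hy (fun k => a k / d) fun z => f z / d := by
    refine ⟨fun z => ?_, fun z => div_ne_zero (h0 z) d1, ?_, fun z m e => ?_⟩
    · simpa only [div_mul_eq_mul_div] using (hs z).div_const (d : ℂ)
    · rw [n, le_div_iff₀ d0]; linarith [min_le_right e (‖f 0‖ / 2)]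
    · rw [n, one_le_div d0]
      refine (min_le_left _ _).trans (h z m ?_)
      simpa only [S, div_mul_eq_mul_div, ← Finset.sum_div, div_eq_zero_iff, d1, or_false] using e
  exact hn ((div_left_inj' d1).1 (H.main z w))

end Pool.Agent.H.MP_5d54af_an
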